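import Pool.Agent.H.MP_9e35a6_lc.E

set_option autoImplicit false

namespace Pool.Agent.Results.MP_9e35a6_lc.Yes

open Pool.Agent.Lib.CX Pool.Agent.H.MP_9e35a6_lc

theorem result (hne : ∃ L : List Bool → Prop, InNP L ∧ ¬ InP L) :
    ∃ (σ : ℕ) (ar : ℕ → ℕ) (V : Type) (A : Str σ ar V), (∀ r, 0 < ar r) ∧ Countable V ∧
      FinBounded A ∧ InNP (CSP A) ∧ ¬ InP (CSP A) ∧ ¬ NPComplete (CSP A) := by
  obtain ⟨σ, ar, V, A, h0, h1, h2, h3, h4, h5⟩ := main hne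
  exact ⟨σ, ar, V, A, h0, h1, h2, h3, h4, fun h => h5 h.2⟩

end Pool.Agent.Results.MP_9e35a6_lc.Yes
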